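import Pool.Agent.Y925.PE.OneVar
import Pool.Agent.H340R2.LW

/-!
# The numbers `k ^ P(e) * e ^ Q(e)` for almost all integers `k`
-/

set_option autoImplicit false

namespace Pool.Agent.Results.MP_58ae59_nt.AlmostAllBases

open Polynomial

/-- The linear forms in `1` and logarithms of algebraic numbers, with algebraic coefficients. -/
noncomputable def LogForms : Submodule (algebraicClosure ℚ ℂ) ℂ :=
  Submodule.span (algebraicClosure ℚ ℂ) ({1} ∪ {z : ℂ | IsAlgebraic ℚ (Complex.exp z)})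

theorem exp_form {k : ℕ} (hk : k ≠ 0) (a b : ℂ) :
    Complex.exp (a * ((Real.log (k : ℝ) : ℝ) : ℂ) + b) = (k : ℂ) ^ a * Complex.exp b := by
  have hlogk : Complex.log ((k : ℕ) : ℂ) = ((Real.log (k : ℝ) : ℝ) : ℂ) := by
    rw [Complex.ofReal_log (by positivity)]
    push_cast
    rfl
  rw [Complex.cpow_def_of_ne_zero (by exact_mod_cast hk), hlogk, ← Complex.exp_add, mul_comm a]

theorem result (D x : ℕ) :
    ∃ E : Finset ℕ, E.card ≤ (1 + Nat.log 2 x) ^ (D * (D - 1)) ∧
      ∀ k : ℕ, 1 ≤ k → k ≤ x → k ∉ E →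
        ∀ P Q : Polynomial (algebraicClosure ℚ ℂ), P.degree < D → Q.degree < D →
          1 ≤ P.natDegree →
          aeval (Complex.exp 1) P * Real.log k + aeval (Complex.exp 1) Q ∉ LogForms ∧
            Transcendental ℚ ((k : ℂ) ^ aeval (Complex.exp 1) P *
              Complex.exp (aeval (Complex.exp 1) Q)) := by
  obtain ⟨E, hE, h⟩ := Pool.Agent.Y925.PE.oneVar (t := Complex.exp 1)
    Pool.Agent.H340R2.LW.transcendental_exp_one_complex (m := 0) (fun _ => 1) rfl D x
    (fun k => ∃ P Q : Polynomial (algebraicClosure ℚ ℂ), P.degree < D ∧ Q.degree < D ∧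
      1 ≤ P.natDegree ∧
      aeval (Complex.exp 1) P * Real.log k + aeval (Complex.exp 1) Q ∈ LogForms)
    (fun k ⟨P, Q, hP, hQ, hP1, hA⟩ => ⟨P, fun _ => Q, hP, fun _ => hQ, hP1, by
      have e1 : aeval (Complex.exp 1) P * ((Real.log (k : ℝ) : ℝ) : ℂ) +
          ∑ i : Fin (0 + 1), (fun _ => (1 : ℂ)) i * aeval (Complex.exp 1) ((fun _ => Q) i) =
          aeval (Complex.exp 1) P * Real.log k + aeval (Complex.exp 1) Q := by
        rw [Fin.sum_univ_one]
        ring
      rw [e1]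
      exact hA⟩)
  refine ⟨E, by simpa using hE, fun k hk1 hkx hkE P Q hP hQ hP1 => ?_⟩
  have h1 : aeval (Complex.exp 1) P * Real.log k + aeval (Complex.exp 1) Q ∉ LogForms :=
    fun hA => h k hk1 hkx hkE ⟨P, Q, hP, hQ, hP1, hA⟩
  refine ⟨h1, fun hal => h1 (Submodule.subset_span (Or.inr ?_))⟩
  change IsAlgebraic ℚ (Complex.exp _)
  rw [exp_form (by omega)]
  exact hal

end Pool.Agent.Results.MP_58ae59_nt.AlmostAllBases
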