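import Mathlib
import Pool.Agent.Y918.RP.Final

/-!
# Powers of `e` whose exponents are random polynomials in `e`

We consider the numbers `exp (ζ_j + λ_j P_j (t_j))` for `j < n`, where `t_j` are transcendental numbers,
for instance `t_j = e`, the `ζ_j` are arbitrary complex numbers, for instance `0` or `e`, the `λ_j` are
nonzero complex numbers, for instance `1`, and the `P_j` are random polynomials of degree less than `k`
with coefficients in a finite set `A` of rational numbers.  So the number `e ^ e` is replaced by the
numbers `e ^ P(e)` or `e ^ (e + P(e))`.  For all `n`, `D` and `N` there are `k₀`, `C` and `δ > 0` such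
that for all `k ≥ k₀` and every space `W` of dimension at most `N` over the field of algebraic numbers,
for instance the space spanned by the numbers `e ^ a * (e ^ e) ^ b`, `a, b ≤ D`, these `n` numbers
satisfy no nonzero polynomial relation with coefficients in `W` of degree at most `D` in each variable,
for all but `C |A|^(n k - δ k)` of the `|A|^(n k)` tuples `(P_0, …, P_{n-1})`.

The proof.  By the multiplicative cube theorem a cube `ζ + ∑_{g ∈ S} w_g` of dimension `G` contains a
number `z` such that `exp z` satisfies no relation of degree at most `D` over `W`, if all `exp w_g` are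
transcendental.  By the six exponentials theorem, applied to `1, t` and to the numbers `λ Q(t)`, the
rational polynomials `Q` of degree less than `M` for which `exp (λ t^a Q(t))` is algebraic form a space
of dimension at most `(M + 3) / 2`.  So, if the coefficients are divided into `G` blocks, the set of the
bad polynomials contains no cube whose generators belong to the blocks and lie outside these spaces,
and an iterated Cauchy-Schwarz inequality shows that it is exponentially small
(`Pool.Agent.Y918.RP.stepX`).  The `n` numbers are treated one after the other, and the monomials in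
the previous ones are adjoined to `W` (`Pool.Agent.Y918.RP.processF`).
-/

set_option autoImplicit false

namespace Pool.Agent.Results.MP_58ae59_nt.RandomPowersOfE

/-- The numbers `x_i` satisfy a nonzero polynomial relation with coefficients in `W`, of degree at
most `D` in each of them. -/
def Related (W : Submodule (algebraicClosure ℚ ℂ) ℂ) (D : ℕ) {m : ℕ} (x : Fin m → ℂ) : Prop :=
  ∃ p : MvPolynomial (Fin m) ℂ, p ≠ 0 ∧ (∀ M, p.coeff M ∈ W) ∧ (∀ i, p.degreeOf i ≤ D) ∧
    MvPolynomial.eval x p = 0

open Classical in
/-- **Main result.** -/
theorem result (n D N : ℕ) : ∃ (k₀ C : ℕ) (δ : ℝ), 0 < δ ∧ ∀ k ≥ k₀, ∀ A : Finset ℚ, A.Nonempty →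
    ∀ W : Submodule (algebraicClosure ℚ ℂ) ℂ, Module.Finite (algebraicClosure ℚ ℂ) W →
    Module.finrank (algebraicClosure ℚ ℂ) W ≤ N →
    ∀ t lam ζ : Fin n → ℂ, (∀ j, Transcendental ℚ (t j)) → (∀ j, lam j ≠ 0) →
    (((Fintype.piFinset fun _ : Fin n => Fintype.piFinset fun _ : Fin k => A).filter
      (fun P : Fin n → Fin k → ℚ => Related W D (fun j : Fin n =>
        Complex.exp (ζ j + lam j * ∑ i : Fin k, (P j i : ℂ) * t j ^ (i : ℕ))))).card : ℝ) ≤
      C * (A.card : ℝ) ^ ((n * k : ℝ) - δ * k) := by
  obtain ⟨k₀, C, δ, hδ, _, h⟩ := Pool.Agent.Y918.RP.tuplesF D n N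
  refine ⟨k₀, C, δ, hδ, fun k hk A hA W hW hWN t lam ζ ht hlam => ?_⟩
  exact h k hk A hA W hW hWN (fun j p => Complex.exp (ζ j +
    lam j * ∑ i : Fin k, (p i : ℂ) * t j ^ (i : ℕ)))
    (fun j => Pool.Agent.Y918.RP.fine_pow (ht j) (hlam j) (ζ j))

end Pool.Agent.Results.MP_58ae59_nt.RandomPowersOfE
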