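import Pool.Agent.W252.BWFinal
import Pool.Agent.H340R2.LW

/-!
# The rational numbers `r` with `e ^ (e ^ r)` algebraic form a sum-free Sidon set
-/

set_option autoImplicit false

namespace Pool.Agent.Results.MP_58ae59_nt.SidonSet

/-- the set of the rational numbers `r` such that `e ^ (e ^ r)` is algebraic -/
def S : Set ℚ := {r | IsAlgebraic ℚ (Real.exp (Real.exp r))}

theorem exp_rat_transcendental {r : ℚ} (hr : r ≠ 0) : Transcendental ℚ (Complex.exp (r : ℂ)) := by
  have h0 : (r : ℂ) ≠ 0 := by exact_mod_cast hr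
  exact Pool.Agent.H340R2.LW.transcendental_cexp _ (isAlgebraic_algebraMap r) h0

theorem indep {p q : ℚ} (h : p ≠ q) :
    LinearIndependent ℚ ![Complex.exp (p : ℂ), Complex.exp (q : ℂ)] := by
  rw [LinearIndependent.pair_iff]
  intro s t hst
  have hkey : (s : ℂ) * Complex.exp ((p - q : ℚ) : ℂ) + t = 0 := by
    have h1 : Complex.exp (q : ℂ) ≠ 0 := Complex.exp_ne_zero _
    have h2 : Complex.exp ((p - q : ℚ) : ℂ) = Complex.exp (p : ℂ) / Complex.exp (q : ℂ) := by
      push_cast
      rw [Complex.exp_sub]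
    rw [h2]
    simp only [Rat.smul_def] at hst
    field_simp
    linear_combination hst
  by_cases hs : s = 0
  · subst hs
    refine ⟨rfl, ?_⟩
    have : (t : ℂ) = 0 := by simpa using hkey
    exact_mod_cast this
  · exfalso
    have hs' : (s : ℂ) ≠ 0 := by exact_mod_cast hs
    have h3 : Complex.exp ((p - q : ℚ) : ℂ) = ((-t / s : ℚ) : ℂ) := by
      have h5 : ((-t / s : ℚ) : ℂ) = -(t : ℂ) / s := by push_cast; rfl
      rw [h5, eq_div_iff hs']
      linear_combination hkey
    have h4 := exp_rat_transcendental (sub_ne_zero.2 h)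
    rw [h3] at h4
    exact h4 (isAlgebraic_algebraMap _)

/-- `e ^ r` is algebraic over `ℚ(e)` -/
theorem alg_theta (r : ℚ) :
    IsAlgebraic (IntermediateField.adjoin ℚ {Complex.exp 1}) (Complex.exp (r : ℂ)) := by
  set F := IntermediateField.adjoin ℚ {Complex.exp 1} with hF
  have hθ : Complex.exp 1 ∈ F := IntermediateField.mem_adjoin_simple_self ℚ _
  have h1 : Complex.exp (r : ℂ) ^ r.den = Complex.exp 1 ^ r.num := by
    rw [← Complex.exp_nat_mul, ← Complex.exp_int_mul, mul_one]
    congr 1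
    have h2 : (r.den : ℚ) * r = r.num := by rw [mul_comm]; exact Rat.mul_den_eq_num r
    exact_mod_cast h2
  have h2 : Complex.exp 1 ^ r.num ∈ F := zpow_mem hθ _
  have h3 : IsAlgebraic F (Complex.exp (r : ℂ) ^ r.den) := by
    rw [h1]
    exact isAlgebraic_algebraMap (⟨_, h2⟩ : F)
  exact IsAlgebraic.of_pow r.pos h3

theorem up {z : ℂ} (hz : IsAlgebraic ℚ z) :
    IsAlgebraic (IntermediateField.adjoin ℚ {Complex.exp 1}) z :=
  hz.extendScalars (algebraMap ℚ _).injective

theorem mem_S {r : ℚ} (hr : r ∈ S) : IsAlgebraic ℚ (Complex.exp (Complex.exp (r : ℂ))) := by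
  have h1 : IsAlgebraic ℚ ((Real.exp (Real.exp r) : ℝ) : ℂ) := by
    have h2 : IsAlgebraic ℚ (Real.exp (Real.exp r)) := hr
    exact h2.algebraMap (A := ℂ)
  have h3 : ((Real.exp (Real.exp r) : ℝ) : ℂ) = Complex.exp (Complex.exp (r : ℂ)) := by
    push_cast
    rfl
  rwa [h3] at h1

/-- the theorem of Brownawell and Waldschmidt for powers of `e` -/
theorem bwE {a b c d : ℚ} (ha : a ∈ S) (hb : b ∈ S) (hc : c ∈ S ∨ c = 0) (hd : d ∈ S ∨ d = 0)
    (h : a + d = b + c) (hab : a ≠ b) (hac : a ≠ c) : False := by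
  have hzero : ∀ {r : ℚ}, (r ∈ S ∨ r = 0) → IsAlgebraic (IntermediateField.adjoin ℚ {Complex.exp 1})
      (Complex.exp (Complex.exp (r : ℂ))) := by
    intro r hr
    rcases hr with hr | hr
    · exact up (mem_S hr)
    · subst hr
      have : Complex.exp (Complex.exp ((0 : ℚ) : ℂ)) = Complex.exp ((1 : ℚ) : ℂ) := by simp
      rw [this]
      exact alg_theta 1
  have h1 : Complex.exp (b : ℂ) * Complex.exp ((c - a : ℚ) : ℂ) = Complex.exp (d : ℂ) := by
    rw [← Complex.exp_add]
    congr 1
    have : b + (c - a) = d := by linarith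
    exact_mod_cast this
  have h2 : Complex.exp (a : ℂ) * Complex.exp ((c - a : ℚ) : ℂ) = Complex.exp (c : ℂ) := by
    rw [← Complex.exp_add]
    congr 1
    have : a + (c - a) = c := by ring
    exact_mod_cast this
  refine Pool.Agent.W252.bw (θ := Complex.exp 1)
    Pool.Agent.H340R2.LW.transcendental_exp_one_complex
    ![Complex.exp (b : ℂ), Complex.exp (a : ℂ)] ![Complex.exp ((0 : ℚ) : ℂ),
      Complex.exp ((c - a : ℚ) : ℂ)] (indep hab.symm) (indep (sub_ne_zero.2 hac.symm).symm)
    ?_ ?_ ?_ ?_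
  · intro i
    fin_cases i
    · exact alg_theta b
    · exact alg_theta a
  · intro i
    fin_cases i
    · exact alg_theta 0
    · exact alg_theta (c - a)
  · intro i
    fin_cases i
    · simpa using mem_S hb
    · simpa using mem_S ha
  · intro i
    fin_cases i
    · change IsAlgebraic _ (Complex.exp (Complex.exp (b : ℂ) * Complex.exp ((c - a : ℚ) : ℂ)))
      rw [h1]
      exact hzero hd
    · change IsAlgebraic _ (Complex.exp (Complex.exp (a : ℂ) * Complex.exp ((c - a : ℚ) : ℂ)))
      rw [h2]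
      exact hzero hc

theorem zero_notMem : (0 : ℚ) ∉ S := by
  intro h
  have h1 := mem_S h
  have h2 : Complex.exp (Complex.exp ((0 : ℚ) : ℂ)) = Complex.exp ((1 : ℚ) : ℂ) := by simp
  rw [h2] at h1
  exact exp_rat_transcendental one_ne_zero h1

theorem sumfree {a b c : ℚ} (ha : a ∈ S) (hb : b ∈ S) (hc : c ∈ S) : a ≠ b + c := by
  intro h
  have hc0 : c ≠ 0 := fun h0 => zero_notMem (h0 ▸ hc)
  have hb0 : b ≠ 0 := fun h0 => zero_notMem (h0 ▸ hb)
  refine bwE (d := 0) ha hb (Or.inl hc) (Or.inr rfl) (by rw [h]; ring) ?_ ?_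
  · intro h1
    apply hc0
    linarith
  · intro h1
    apply hb0
    linarith

theorem sidon {a b c d : ℚ} (ha : a ∈ S) (hb : b ∈ S) (hc : c ∈ S) (hd : d ∈ S)
    (h : a + b = c + d) : a = c ∨ a = d := by
  by_contra hcon
  push Not at hcon
  exact bwE ha hc (Or.inl hd) (Or.inl hb) h hcon.1 hcon.2

open Classical in
theorem count (N : ℕ) :
    let s := ((Finset.Icc 1 N).filter (fun n : ℕ => (n : ℚ) ∈ S)).card
    s * (s + 1) ≤ 2 * N := by
  intro s
  set F := (Finset.Icc 1 N).filter (fun n : ℕ => (n : ℚ) ∈ S) with hF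
  have h0 : (0 : ℕ) ∉ F := by
    intro h
    have := (Finset.mem_Icc.1 (Finset.mem_filter.1 h).1).1
    omega
  set T := insert 0 F with hT
  have hTc : T.card = s + 1 := Finset.card_insert_of_notMem h0
  have hmem : ∀ n ∈ T, n = 0 ∨ (1 ≤ n ∧ n ≤ N ∧ (n : ℚ) ∈ S) := by
    intro n hn
    rcases Finset.mem_insert.1 hn with h | h
    · exact Or.inl h
    · have h1 := Finset.mem_filter.1 h
      have h2 := Finset.mem_Icc.1 h1.1
      exact Or.inr ⟨h2.1, h2.2, h1.2⟩
  have hle : ∀ n ∈ T, n ≤ N := by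
    intro n hn
    rcases hmem n hn with h | h
    · omega
    · exact h.2.1
  have hcard : T.offDiag.card ≤ ((Finset.Icc (-(N : ℤ)) N).erase 0).card := by
    apply Finset.card_le_card_of_injOn (fun p => (p.1 : ℤ) - p.2)
    · intro p hp
      have hp' := Finset.mem_offDiag.1 hp
      have h1 := hle _ hp'.1
      have h2 := hle _ hp'.2.1
      have h3 := hp'.2.2
      refine Finset.mem_coe.2 (Finset.mem_erase.2 ⟨?_, Finset.mem_Icc.2 ⟨?_, ?_⟩⟩)
      · show (p.1 : ℤ) - p.2 ≠ 0
        omega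
      · show -(N : ℤ) ≤ (p.1 : ℤ) - p.2
        omega
      · show (p.1 : ℤ) - p.2 ≤ N
        omega
    · rintro ⟨x, y⟩ hp ⟨x', y'⟩ hp' heq
      have hp1 := Finset.mem_offDiag.1 (Finset.mem_coe.1 hp)
      have hp2 := Finset.mem_offDiag.1 (Finset.mem_coe.1 hp')
      simp only at hp1 hp2 heq
      have hq : (x : ℤ) + y' = x' + y := by linarith
      have hn : x + y' = x' + y := by exact_mod_cast hq
      have hqr : ((x : ℚ)) + (y' : ℚ) = (x' : ℚ) + (y : ℚ) := by exact_mod_cast hn
      have hxy : x ≠ y := hp1.2.2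
      have hxy' : x' ≠ y' := hp2.2.2
      have done : x = x' → (x, y) = (x', y') := by
        intro h
        have : y = y' := by omega
        rw [h, this]
      rcases hmem x hp1.1 with hx | ⟨hx1, -, hx⟩ <;> rcases hmem y hp1.2.1 with hy | ⟨hy1, -, hy⟩ <;>
        rcases hmem x' hp2.1 with hx' | ⟨hx1', -, hx'⟩ <;>
        rcases hmem y' hp2.2.1 with hy' | ⟨hy1', -, hy'⟩
      all_goals try omega
      all_goals try exact done (by omega)
      · -- `x = 0`
        exfalso
        refine sumfree hy' hx' hy ?_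
        rw [hx] at hqr
        push_cast at hqr
        linarith
      · -- `y = 0`
        exfalso
        refine sumfree hx' hx hy' ?_
        rw [hy] at hqr
        push_cast at hqr
        linarith
      · -- `x' = 0`
        exfalso
        refine sumfree hy hx hy' ?_
        rw [hx'] at hqr
        push_cast at hqr
        linarith
      · -- `y' = 0`
        exfalso
        refine sumfree hx hx' hy ?_
        rw [hy'] at hqr
        push_cast at hqr
        linarith
      · rcases sidon hx hy' hx' hy hqr with h | h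
        · exact done (by exact_mod_cast h)
        · exact absurd (by exact_mod_cast h) hxy
  rw [Finset.offDiag_card, hTc, Finset.card_erase_of_mem (Finset.mem_Icc.2 ⟨by omega, by omega⟩),
    Int.card_Icc] at hcard
  have h5 : ((N : ℤ) + 1 - -(N : ℤ)).toNat - 1 = 2 * N := by omega
  rw [h5] at hcard
  have h6 : (s + 1) * (s + 1) - (s + 1) = s * (s + 1) := by
    have : (s + 1) * (s + 1) = s * (s + 1) + (s + 1) := by ring
    omega
  rwa [h6] at hcard

open Classical in
/-- The rational numbers `r` with `e ^ (e ^ r)` algebraic form a sum-free Sidon set; at most about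
`√(2 N)` of the `N` numbers `e ^ (e ^ n)`, `n ≤ N`, are algebraic. -/
theorem result :
    (∀ a ∈ S, ∀ b ∈ S, ∀ c ∈ S, a ≠ b + c) ∧
    (∀ a ∈ S, ∀ b ∈ S, ∀ c ∈ S, ∀ d ∈ S, a + b = c + d → a = c ∨ a = d) ∧
    (∀ N s : ℕ, s = ((Finset.Icc 1 N).filter (fun n : ℕ => (n : ℚ) ∈ S)).card →
      s * (s + 1) ≤ 2 * N) :=
  ⟨fun _ ha _ hb _ hc => sumfree ha hb hc, fun _ ha _ hb _ hc _ hd h => sidon ha hb hc hd h,
    fun N s hs => by rw [hs]; exact count N⟩

end Pool.Agent.Results.MP_58ae59_nt.SidonSet
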